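import Pool.Agent.Helper80.EC_F.Goals
import Pool.Agent.Helper80.EC_F.Tool

/-! # R13: the regularised integral of `a X / y²` -/

set_option autoImplicit false

open MeasureTheory Filter Topology Set

namespace EC237.PF.PkR13

/-- The term of the series, times `z⁴`. -/
noncomputable def tS (c : ℝ) (p : ℕ × ℕ) (z : ℝ) : ℝ :=
  ((p.2:ℝ) + 1) ^ 3 * (z ^ 4 * Real.exp (-(c * ((p.1:ℝ) + 1) * ((p.2:ℝ) + 1) * z)))

/-- The series, times `z⁴`. -/
noncomputable def Sc (c z : ℝ) : ℝ := ∑' p : ℕ × ℕ, tS c p z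

theorem sum_two : HasSum (fun n : ℕ => 1 / ((n:ℝ) + 1) ^ 2) (Real.pi ^ 2 / 6) := by
  have h := (hasSum_nat_add_iff' (f := fun n : ℕ => 1 / (n:ℝ) ^ 2) 1).2 hasSum_zeta_two
  simpa using h

theorem summable_five : Summable (fun n : ℕ => 1 / ((n:ℝ) + 1) ^ 5) := by
  have h := (summable_nat_add_iff 1).2 (Real.summable_one_div_nat_pow.2 (by norm_num : 1 < 5))
  simpa using h

theorem tS_int (h3 : G_GAM) {c : ℝ} (hc : 0 < c) (p : ℕ × ℕ) :
    IntegrableOn (tS c p) (Ioi 0) ∧ ∫ z in Ioi (0:ℝ), tS c p z =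
      24 / c ^ 5 * (1 / ((p.1:ℝ) + 1) ^ 5 * (1 / ((p.2:ℝ) + 1) ^ 2)) := by
  have hM : (0:ℝ) < (p.1:ℝ) + 1 := by positivity
  have hν : (0:ℝ) < (p.2:ℝ) + 1 := by positivity
  obtain ⟨h1, h2⟩ := h3 4 (c * ((p.1:ℝ) + 1) * ((p.2:ℝ) + 1)) (by positivity)
  refine ⟨h1.const_mul _, ?_⟩
  unfold tS
  rw [integral_const_mul, h2]
  have : ((Nat.factorial 4 : ℕ) : ℝ) = 24 := by norm_num [Nat.factorial]
  rw [this]
  field_simp
  ring

theorem tS_nonneg {c : ℝ} (p : ℕ × ℕ) {z : ℝ} : 0 ≤ tS c p z := by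
  unfold tS
  positivity

theorem Sc_int (h3 : G_GAM) {c : ℝ} (hc : 0 < c) : IntegrableOn (Sc c) (Ioi 0) ∧
    ∫ z in Ioi (0:ℝ), Sc c z = 24 / c ^ 5 * (zeta5 * (Real.pi ^ 2 / 6)) := by
  have hsum : Summable fun p : ℕ × ℕ =>
      1 / ((p.1:ℝ) + 1) ^ 5 * (1 / ((p.2:ℝ) + 1) ^ 2) :=
    summable_five.mul_of_nonneg sum_two.summable (fun n => by positivity) (fun n => by positivity)
  have hnorm : ∀ p : ℕ × ℕ, ∫ z in Ioi (0:ℝ), ‖tS c p z‖ =
      24 / c ^ 5 * (1 / ((p.1:ℝ) + 1) ^ 5 * (1 / ((p.2:ℝ) + 1) ^ 2)) := by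
    intro p
    rw [← (tS_int h3 hc p).2]
    refine setIntegral_congr_fun measurableSet_Ioi fun z _ => ?_
    exact Real.norm_of_nonneg (tS_nonneg p)
  have hs : Summable fun p : ℕ × ℕ => ∫ z in Ioi (0:ℝ), ‖tS c p z‖ := by
    simp only [hnorm]
    exact hsum.mul_left _
  have hi : ∀ p : ℕ × ℕ, Integrable (tS c p) (volume.restrict (Ioi 0)) := fun p =>
    (tS_int h3 hc p).1
  refine ⟨integrable_tsum hi hs, ?_⟩
  unfold Sc
  rw [← integral_tsum_of_summable_integral_norm hi hs]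
  have h5 : ∀ p : ℕ × ℕ, ∫ z in Ioi (0:ℝ), tS c p z =
      24 / c ^ 5 * (1 / ((p.1:ℝ) + 1) ^ 5 * (1 / ((p.2:ℝ) + 1) ^ 2)) := fun p =>
    (tS_int h3 hc p).2
  simp only [h5]
  rw [tsum_mul_left]
  congr 1
  rw [← sum_two.tsum_eq, zeta5]
  exact (tsum_mul_tsum_of_summable_norm summable_five.norm sum_two.summable.norm).symm

theorem ES_eq {k y : ℝ} (hk : 0 < k) (hy : 0 < y) (h2 : CE4) :
    ES (Real.exp (-(Real.pi * k * y))) =
      16 / k ^ 4 * (y⁻¹) ^ 4 + 240 * (16 / k ^ 4 * Sc (4 * Real.pi / k) y⁻¹) := by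
  have h := h2 (2 / (k * y)) (by positivity)
  have e1 : 2 * Real.pi / (2 / (k * y)) = Real.pi * k * y := by field_simp
  rw [e1] at h
  rw [h]
  unfold ES Sc
  have e2 : ∀ p : ℕ × ℕ, tS (4 * Real.pi / k) p y⁻¹ = (y⁻¹) ^ 4 * (((p.2:ℝ) + 1) ^ 3 *
      Real.exp (-(2 * Real.pi * (2 / (k * y)))) ^ ((p.1 + 1) * (p.2 + 1))) := by
    intro p
    unfold tS
    rw [← Real.exp_nat_mul]
    have e3 : ((((p.1 + 1) * (p.2 + 1) : ℕ)) : ℝ) * (-(2 * Real.pi * (2 / (k * y)))) =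
        -(4 * Real.pi / k * ((p.1:ℝ) + 1) * ((p.2:ℝ) + 1) * y⁻¹) := by
      push_cast
      field_simp
      ring
    rw [e3]
    ring
  simp only [e2]
  rw [tsum_mul_left]
  have e4 : (2 / (k * y)) ^ 4 = 16 / k ^ 4 * (y⁻¹) ^ 4 := by
    field_simp
    norm_num
  rw [e4]
  ring

theorem thm (h1 : EC237.C10) (h2 : EC237.CE4) (h3 : G_GAM) (h4 : G_RINV) : G_R13 := by
  intro k hk
  have hk0 : (0:ℝ) < k := by exact_mod_cast hk
  have hpi := Real.pi_pos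
  obtain ⟨i1, v1⟩ := Sc_int h3 (c := 4 * Real.pi / k) (by positivity)
  obtain ⟨i2, v2⟩ := Sc_int h3 (c := 4 * Real.pi / (3 * k)) (by positivity)
  have iA : Integrable (fun z => 16 / (k:ℝ) ^ 4 * Sc (4 * Real.pi / k) z)
      (volume.restrict (Ioi 0)) := i1.const_mul _
  have iB : Integrable (fun z => 16 / (3 * (k:ℝ)) ^ 4 * Sc (4 * Real.pi / (3 * k)) z)
      (volume.restrict (Ioi 0)) := i2.const_mul _
  have hE : ∫ z in Ioi (0:ℝ), (16 / (k:ℝ) ^ 4 * Sc (4 * Real.pi / k) z -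
      16 / (3 * (k:ℝ)) ^ 4 * Sc (4 * Real.pi / (3 * k)) z) =
      -((k:ℝ) * zeta5 / (8 * Real.pi ^ 3)) := by
    rw [integral_sub iA iB, integral_const_mul, integral_const_mul, v1, v2]
    field_simp
    ring
  rw [← hE]
  refine h4 _ _ (Polynomial.C ((16 / (k:ℝ) ^ 4 - 16 / (3 * (k:ℝ)) ^ 4) / 240) *
    Polynomial.X ^ 4) ?_ (iA.sub iB)
  intro y hy
  have hq : Real.exp (-(Real.pi * y)) ^ k = Real.exp (-(Real.pi * k * y)) := by
    rw [← Real.exp_nat_mul]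
    congr 1
    ring
  rw [hq]
  have hq3 : Real.exp (-(Real.pi * k * y)) ^ 3 = Real.exp (-(Real.pi * (3 * k) * y)) := by
    rw [← Real.exp_nat_mul]
    congr 1
    push_cast
    ring
  have hlt : Real.exp (-(Real.pi * k * y)) < 1 := by
    rw [Real.exp_lt_one_iff]
    have : 0 < Real.pi * k * y := by positivity
    linarith
  have h5 := h1 (Real.exp (-(Real.pi * k * y))) (Real.exp_pos _).le hlt
  rw [hq3, ES_eq hk0 hy h2, ES_eq (k := 3 * k) (by positivity) hy h2] at h5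
  simp only [Polynomial.eval_mul, Polynomial.eval_C, Polynomial.eval_pow, Polynomial.eval_X]
  congr 1
  linarith

end EC237.PF.PkR13
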